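import Pool.Agent.H516.PCF.All

/-! The products over the fibres lie in a finitely generated group. -/

namespace Pool.Agent.H803.PCF

open Polynomial
open Pool.Agent.H516.PCF

section gen

variable {k : Type} [Field k]

/-- membership in the group generated by `Θ` -/
def Gm (Θ : Finset kˣ) (x : k) : Prop := ∃ u ∈ Subgroup.closure (Θ : Set kˣ), (u : k) = x

theorem gm_one (Θ : Finset kˣ) : Gm Θ (1 : k) := ⟨1, one_mem _, Units.val_one⟩

theorem gm_mul {Θ : Finset kˣ} {x y : k} (hx : Gm Θ x) (hy : Gm Θ y) : Gm Θ (x * y) := by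
  obtain ⟨u, hu, rfl⟩ := hx
  obtain ⟨v, hv, rfl⟩ := hy
  exact ⟨u * v, mul_mem hu hv, Units.val_mul u v⟩

theorem gm_inv {Θ : Finset kˣ} {x : k} (hx : Gm Θ x) : Gm Θ x⁻¹ := by
  obtain ⟨u, hu, rfl⟩ := hx
  exact ⟨u⁻¹, inv_mem hu, Units.val_inv_eq_inv_val u⟩

theorem gm_div {Θ : Finset kˣ} {x y : k} (hx : Gm Θ x) (hy : Gm Θ y) : Gm Θ (x / y) := by
  rw [div_eq_mul_inv]
  exact gm_mul hx (gm_inv hy)

theorem gm_pow {Θ : Finset kˣ} {x : k} (hx : Gm Θ x) (n : ℕ) : Gm Θ (x ^ n) := by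
  obtain ⟨u, hu, rfl⟩ := hx
  exact ⟨u ^ n, pow_mem hu n, Units.val_pow_eq_pow_val u n⟩

theorem gm_mprod {Θ : Finset kˣ} (s : Multiset k) (h : ∀ x ∈ s, Gm Θ x) : Gm Θ s.prod := by
  induction s using Multiset.induction_on with
  | empty => rw [Multiset.prod_zero]; exact gm_one Θ
  | cons a s ih =>
    rw [Multiset.prod_cons]
    exact gm_mul (h a (Multiset.mem_cons_self a s)) (ih fun x hx => h x (Multiset.mem_cons_of_mem hx))

theorem gm_prod {Θ : Finset kˣ} {ι : Type} (s : Finset ι) (f : ι → k) (h : ∀ i ∈ s, Gm Θ (f i)) :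
    Gm Θ (∏ i ∈ s, f i) := by
  apply gm_mprod
  intro x hx
  obtain ⟨i, hi, rfl⟩ := Multiset.mem_map.1 hx
  exact h i hi

/-- a finite set of units containing the nonzero elements of a finite set -/
theorem exists_units (S : Set k) (hS : S.Finite) : ∃ Θ : Finset kˣ, ∀ x ∈ S, x ≠ 0 → Gm Θ x := by
  have hf : {u : kˣ | (u : k) ∈ S}.Finite := hS.preimage (Units.val_injective.injOn)
  refine ⟨hf.toFinset, fun x hx h0 => ⟨Units.mk0 x h0, Subgroup.subset_closure ?_, rfl⟩⟩
  rw [Finset.mem_coe, Set.Finite.mem_toFinset]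
  exact hx

theorem common (P Q : k[X]) (h : IsCoprime P Q) (x : k) (hQ : Q.eval x = 0) : P.eval x ≠ 0 := by
  intro hP
  obtain ⟨u, v, huv⟩ := h
  have := congrArg (Polynomial.eval x) huv
  rw [eval_add, eval_mul, eval_mul, hP, hQ, mul_zero, mul_zero, add_zero, eval_one] at this
  exact zero_ne_one this

end gen

theorem grp (hEVAL : S_EVAL) (hORB : S_ORB) (hWDEG : S_WDEG) : S_GRP := by
  intro k _ _ d P Q A hN hA t ht
  have hP0 : P.leadingCoeff ≠ 0 := by
    rw [leadingCoeff_ne_zero]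
    intro h
    have h1 := hN.degP
    have h2 := hN.two_le
    rw [h, natDegree_zero] at h1
    omega
  have hQP : Q.natDegree < P.natDegree := by rw [hN.degP]; exact hN.degQ
  have hW0 : wr P Q ≠ 0 := (hWDEG k P Q hN.Q0 hQP).1
  let S : Set k := (({-1, P.leadingCoeff, (wr P Q).leadingCoeff, Q.leadingCoeff} : Set k) ∪
    (fun x => x - t) '' A) ∪ ((fun x => Q.eval x) '' A ∪ (fun x => P.eval x) '' A)
  have hS : S.Finite := by
    refine Set.Finite.union (Set.Finite.union ?_ (hA.fin.image _))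
      (Set.Finite.union (hA.fin.image _) (hA.fin.image _))
    exact (((Set.finite_singleton _).insert _).insert _).insert _
  obtain ⟨Θ, hΘ⟩ := exists_units S hS
  have m1 : Gm Θ (-1 : k) := hΘ _ (Or.inl (Or.inl (by simp))) (by simp)
  have ma : Gm Θ P.leadingCoeff := hΘ _ (Or.inl (Or.inl (by simp))) hP0
  have mw : Gm Θ (wr P Q).leadingCoeff :=
    hΘ _ (Or.inl (Or.inl (by simp))) (leadingCoeff_ne_zero.2 hW0)
  have mq : Gm Θ Q.leadingCoeff := hΘ _ (Or.inl (Or.inl (by simp))) (leadingCoeff_ne_zero.2 hN.Q0)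
  have mt : ∀ x ∈ A, Gm Θ (x - t) := fun x hx =>
    hΘ _ (Or.inl (Or.inr ⟨x, hx, rfl⟩)) (by
      rw [sub_ne_zero]
      rintro rfl
      exact ht hx)
  have mQ : ∀ x ∈ A, Q.eval x ≠ 0 → Gm Θ (Q.eval x) := fun x hx h =>
    hΘ _ (Or.inr (Or.inl ⟨x, hx, rfl⟩)) h
  have mP : ∀ x ∈ A, P.eval x ≠ 0 → Gm Θ (P.eval x) := fun x hx h =>
    hΘ _ (Or.inr (Or.inr ⟨x, hx, rfl⟩)) h
  have key : ∀ (i : ℕ), ∀ x ∈ A, ((qn d P Q i).eval x ≠ 0 → Gm Θ ((qn d P Q i).eval x)) ∧
      ((qn d P Q i).eval x = 0 → Gm Θ ((pn d P Q i).eval x)) := by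
    intro i
    induction i with
    | zero =>
      intro x _
      have e : (qn d P Q 0).eval x = 1 := by
        show eval x (1 : k[X]) = 1
        exact eval_one
      rw [e]
      exact ⟨fun _ => gm_one Θ, fun h => absurd h one_ne_zero⟩
    | succ i ih =>
      intro x hx
      by_cases h0 : (qn d P Q i).eval x = 0
      · obtain ⟨e1, e2⟩ := (hEVAL k d P Q hN i x).2 h0
        refine ⟨fun h => absurd e1 h, fun _ => ?_⟩
        rw [e2]
        exact gm_mul ma (gm_pow ((ih x hx).2 h0) _)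
      · obtain ⟨e1, e2, -⟩ := (hEVAL k d P Q hN i x).1 h0
        have hf : fn d P Q i x ∈ A := (hORB k d P Q A hN hA i x h0).1 hx
        rw [e1, e2]
        refine ⟨fun h => ?_, fun h => ?_⟩
        · exact gm_mul (gm_pow ((ih x hx).1 h0) _) (mQ _ hf (right_ne_zero_of_mul h))
        · have hQ0 : Q.eval (fn d P Q i x) = 0 := by
            rcases mul_eq_zero.1 h with h1 | h1
            · exact absurd h1 (pow_ne_zero _ h0)
            · exact h1
          exact gm_mul (gm_pow ((ih x hx).1 h0) _) (mP _ hf (common P Q hN.cop _ hQ0))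
  have kgp : ∀ (i : ℕ), ∀ x ∈ A, Gm Θ ((gp d P Q i t).eval x) := by
    intro i x hx
    have e : (gp d P Q i t).eval x = (pn d P Q i).eval x - t * (qn d P Q i).eval x := by
      rw [gp, eval_sub, eval_mul, eval_C]
    by_cases h0 : (qn d P Q i).eval x = 0
    · rw [e, h0, mul_zero, sub_zero]
      exact (key i x hx).2 h0
    · have hf : fn d P Q i x ∈ A := (hORB k d P Q A hN hA i x h0).1 hx
      have e2 : (gp d P Q i t).eval x = (qn d P Q i).eval x * (fn d P Q i x - t) := by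
        rw [e, fn]
        field_simp
      rw [e2]
      exact gm_mul ((key i x hx).1 h0) (mt _ hf)
  have kcf : ∀ (i : ℕ) (R : k[X]), Gm Θ R.leadingCoeff → (∀ c ∈ R.roots, c ∈ A) →
      Gm Θ (cf d P Q i t R) := by
    intro i R hR hc
    rw [cf]
    apply gm_mul (gm_pow hR _)
    apply gm_mprod
    intro y hy
    obtain ⟨c, hcR, rfl⟩ := Multiset.mem_map.1 hy
    exact gm_div (gm_mul (gm_pow m1 _) (kgp i c (hc c hcR))) (gm_pow ma _)
  refine ⟨Θ, fun n => ?_⟩
  show Gm Θ (en d P Q n t)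
  rw [en]
  apply gm_prod
  intro i _
  apply gm_pow
  apply gm_div
  · apply kcf _ _ mw
    intro c hc
    exact hA.crit c (isRoot_of_mem_roots hc)
  · apply gm_pow
    apply kcf _ _ mq
    intro c hc
    exact hA.pole c (isRoot_of_mem_roots hc)

end Pool.Agent.H803.PCF
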