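import Pool.Agent.H516.PCF.All

/-! Average distance of a fibre to a fixed point. -/

namespace Pool.Agent.H803.PCF

open Polynomial
open Pool.Agent.H516.PCF

theorem geom_succ (d n : ℕ) : geom d (n + 1) = geom d n * d + 1 := by
  unfold geom
  rw [Finset.sum_range_succ', Finset.sum_mul, pow_zero]
  rfl

/-- valuation of a product -/
theorem w_mprod {F : Type} [Field F] (w : F → ℝ) (h1 : w 1 = 0)
    (hm : ∀ x y, x ≠ 0 → y ≠ 0 → w (x * y) = w x + w y) (s : Multiset F) :
    (∀ x ∈ s, x ≠ 0) → w s.prod = (s.map w).sum ∧ s.prod ≠ 0 := by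
  induction s using Multiset.induction_on with
  | empty =>
    intro _
    rw [Multiset.prod_zero, Multiset.map_zero, Multiset.sum_zero]
    exact ⟨h1, one_ne_zero⟩
  | cons a s ih =>
    intro h
    obtain ⟨i1, i2⟩ := ih fun x hx => h x (Multiset.mem_cons_of_mem hx)
    have ha := h a (Multiset.mem_cons_self a s)
    rw [Multiset.prod_cons, Multiset.map_cons, Multiset.sum_cons, hm _ _ ha i2, i1]
    exact ⟨rfl, mul_ne_zero ha i2⟩

theorem uq (hNAB : S_NAB) (hDEG : S_DEG) (hEVAL : S_EVAL) : S_UQ := by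
  intro F _ _ _ p w hp hw d P Q hN q hq γ hγ n
  obtain ⟨w1, wneg, winv, wpow, wdiv, wsymm, -⟩ := hNAB F p w hp hw
  have hQq : Q.eval q ≠ 0 := by
    intro h
    obtain ⟨u, v, huv⟩ := hN.cop
    have := congrArg (Polynomial.eval q) huv
    rw [eval_add, eval_mul, eval_mul, hq, h, mul_zero, mul_zero, mul_zero, add_zero,
      eval_one] at this
    exact zero_ne_one this
  have ha : P.leadingCoeff ≠ 0 := by
    rw [leadingCoeff_ne_zero]
    intro h
    have h1 := hN.degP
    have h2 := hN.two_le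
    rw [h, natDegree_zero] at h1
    omega
  have hit : ∀ n, (qn d P Q n).eval q = Q.eval q ^ geom d n ∧
      (pn d P Q n).eval q = q * (qn d P Q n).eval q := by
    intro n
    induction n with
    | zero =>
      constructor
      · show eval q (1 : F[X]) = _
        rw [eval_one, geom, Finset.range_zero, Finset.sum_empty, pow_zero]
      · show eval q (X : F[X]) = q * eval q (1 : F[X])
        rw [eval_X, eval_one, mul_one]
    | succ n ih =>
      have h0 : (qn d P Q n).eval q ≠ 0 := by
        rw [ih.1]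
        exact pow_ne_zero _ hQq
      have hf : fn d P Q n q = q := by
        rw [fn, ih.2]
        field_simp
      obtain ⟨e1, e2, -⟩ := (hEVAL F d P Q hN n q).1 h0
      rw [hf] at e1 e2
      constructor
      · rw [e2, ih.1, geom_succ, pow_succ, pow_mul]
      · rw [e1, e2, hq]
        ring
  obtain ⟨hdeg, hlead⟩ := (hDEG F d P Q hN n).2.2.2.2.2.1 γ
  have hgp : (gp d P Q n γ).eval q = Q.eval q ^ geom d n * (q - γ) := by
    rw [gp, eval_sub, eval_mul, eval_C, (hit n).2, (hit n).1]
    ring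
  have hgp0 : (gp d P Q n γ).eval q ≠ 0 := by
    rw [hgp]
    exact mul_ne_zero (pow_ne_zero _ hQq) (sub_ne_zero.2 hγ.symm)
  have hne : ∀ β ∈ fib d P Q n γ, β ≠ q := by
    rintro β hβ rfl
    exact hgp0 (isRoot_of_mem_roots hβ)
  refine ⟨?_, hne⟩
  have hsp := (IsAlgClosed.splits (gp d P Q n γ)).eval_eq_prod_roots q
  rw [hlead, hgp] at hsp
  have hs := w_mprod w w1 hw.mul ((gp d P Q n γ).roots.map fun a => q - a) (by
    intro x hx
    obtain ⟨β, hβ, rfl⟩ := Multiset.mem_map.1 hx
    exact sub_ne_zero.2 (hne β hβ).symm)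
  have h2 := congrArg w hsp
  rw [hw.mul _ _ (pow_ne_zero _ hQq) (sub_ne_zero.2 hγ.symm), hw.mul _ _ (pow_ne_zero _ ha) hs.2,
    hs.1, wpow _ hQq, wpow _ ha, Multiset.map_map] at h2
  have h3 : ((fib d P Q n γ).map fun β => w (β - q)).sum =
      ((gp d P Q n γ).roots.map (w ∘ fun a => q - a)).sum := by
    show ((gp d P Q n γ).roots.map fun β => w (β - q)).sum = _
    congr 1
    apply Multiset.map_congr rfl
    intro β hβ
    exact wsymm β q (hne β hβ)
  rw [h3]
  linarith

end Pool.Agent.H803.PCF
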